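import Mathlib
import Pool.Agent.H.MP_b61c36_nt.Main

namespace Pool.Agent.Results.MP_1f5025_nt.NoThreshold

open Filter Topology MeasureTheory Finset

open Classical in
/-- Poissonian pair correlations of a real sequence indexed from 0. -/
def PPC (x : ℕ → ℝ) : Prop :=
  ∀ s : ℝ, 0 < s →
    Tendsto (fun N : ℕ =>
      (((Finset.range N ×ˢ Finset.range N).filter (fun p : ℕ × ℕ =>
        p.1 ≠ p.2 ∧ |x p.1 - x p.2 - round (x p.1 - x p.2)| < s / N)).card : ℝ) / N)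
      atTop (𝓝 (2 * s))

/-- Additive energy of the first `N` terms. -/
def energy (a : ℕ → ℕ) (N : ℕ) : ℕ :=
  (((Finset.range N ×ˢ Finset.range N) ×ˢ (Finset.range N ×ˢ Finset.range N)).filter
    (fun q : (ℕ × ℕ) × (ℕ × ℕ) => a q.1.1 + a q.1.2 = a q.2.1 + a q.2.2)).card

open Pool.Agent.H.MP_b61c36_nt in
theorem ppc_iff (a : ℕ → ℕ) (α : ℝ) : PPC (fun n => Int.fract ((a n : ℝ) * α)) ↔
    ∀ s : ℝ, 0 < s → Tendsto (fun N : ℕ =>
      (DD (fun n => ((a n * α : ℝ) : T)) N (s / N) : ℝ) / N) atTop (𝓝 (2 * s)) := by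
  have key : ∀ u v : ℝ, |Int.fract u - Int.fract v - round (Int.fract u - Int.fract v)| =
      dist ((u : ℝ) : T) ((v : ℝ) : T) := by
    intro u v
    rw [← UnitAddCircle.norm_eq, AddCircle.coe_sub, AddCircle.coe_fract, AddCircle.coe_fract,
      dist_eq_norm]
  unfold PPC DD
  simp only [key]

open Pool.Agent.H.MP_b61c36_nt Classical in
theorem build {e : ℕ → ℕ} (e1 : ∀ k, ∀ᶠ n in atTop, k ≤ e n) :
    ∃ a : ℕ → ℕ, StrictMono a ∧ 0 < a 0 ∧
    (∀ n, bad e n → bad e (n + 1) → Nat.log 2 (n + 1) = Nat.log 2 n → a (n + 1) = a n + 1) ∧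
    ∀ s : ℝ, 0 < s → Tendsto (fun N : ℕ =>
      (DD (fun n => ((a n * √2 : ℝ) : T)) N (s / N) : ℝ) / N) atTop (𝓝 (2 * s)) := by
  have hd := bad_density e1
  obtain ⟨y, y1, y2⟩ := exists_sq (bad e) (fun n => ((Nat.count (bad e) n * √2 : ℝ) : T)) hd (by
    intro s hs
    filter_upwards [hd (1 / (8 * s)) (by positivity), eventually_gt_atTop 0] with N h1 h2
    have N0 : (0 : ℝ) < N := by exact_mod_cast h2
    have key : ∀ k < N, ∀ l < N, bad e k → k < l → s / N <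
        dist ((Nat.count (bad e) l * √2 : ℝ) : T) ((Nat.count (bad e) k * √2 : ℝ) : T) := by
      intro k _ l hl h3 h4
      have a1 := Nat.count_strict_mono h3 h4
      have a2 : Nat.count (bad e) l ≤ Nat.count (bad e) N := Nat.count_monotone _ hl.le
      rw [dist_eq_norm, ← AddCircle.coe_sub, ← sub_mul, ← Nat.cast_sub a1.le]
      refine lt_of_lt_of_le ?_ (sqrt2_sep (by omega))
      rw [← Nat.count_eq_card_filter_range] at h1
      have a3 : ((Nat.count (bad e) l - Nat.count (bad e) k : ℕ) : ℝ) ≤ Nat.count (bad e) N := by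
        exact_mod_cast (Nat.sub_le _ _).trans a2
      have a4 : (0 : ℝ) < ((Nat.count (bad e) l - Nat.count (bad e) k : ℕ) : ℝ) := by
        exact_mod_cast (show 0 < Nat.count (bad e) l - Nat.count (bad e) k by omega)
      rw [div_lt_div_iff₀ N0 (by positivity)]
      have a5 := mul_le_mul_of_nonneg_left (a3.trans h1) (show 0 ≤ 8 * s by positivity)
      rw [← mul_assoc, mul_one_div_cancel (by positivity)] at a5
      linarith
    intro k hk l hl h3 h4 h5
    rcases lt_or_gt_of_ne h5 with h | h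
    · rw [dist_comm]; exact key k hk l hl h3 h
    · exact key l hl k hk h4 h)
  obtain ⟨a, a1, a2, a3, a4⟩ := exists_seq (bad e) y (fun n h1 h2 => by
    rw [y1 n h1, y1 _ h2, Nat.count_succ, if_pos h1, Nat.cast_add, add_mul, Nat.cast_one, one_mul,
      AddCircle.coe_add])
  exact ⟨a, a1, a2, a3, fun s hs => tendsto_DD (up_pert (up_of_sq y2) a4)
    (lo_pert (up_of_sq y2) (lo_of_sq y2) a4) hs⟩

open Pool.Agent.H.MP_b61c36_nt in
theorem energy_ge {e a : ℕ → ℕ}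
    (ha : ∀ n, bad e n → bad e (n + 1) → Nat.log 2 (n + 1) = Nat.log 2 n → a (n + 1) = a n + 1)
    {j m N : ℕ} (hm : 2 * m * (e j + 1) ≤ 2 ^ j) (hN : 2 ^ (j + 1) ≤ N) :
    m ^ 3 ≤ energy a N := by
  obtain ⟨A, hA⟩ : ∃ A, A = 2 ^ j := ⟨_, rfl⟩
  have d3 : 2 * m ≤ A := by
    have : 2 * m * 1 ≤ 2 * m * (e j + 1) := Nat.mul_le_mul_left _ (by omega)
    omega
  have hN' : 2 * A ≤ N := by rw [pow_succ] at hN; omega
  have lg : ∀ i < 2 * m, Nat.log 2 (A + i) = j := fun i hi =>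
    Nat.log_eq_of_pow_le_of_lt_pow (by omega) (by rw [pow_succ]; omega)
  have hb : ∀ i < 2 * m, bad e (A + i) := by
    intro i hi
    unfold bad
    rw [lg i hi, ← hA, Nat.add_sub_cancel_left]
    have c1 : (i + 1) * (e j + 1) ≤ 2 * m * (e j + 1) := Nat.mul_le_mul_right _ (by omega)
    nlinarith
  have hv : ∀ i < 2 * m, a (A + i) = a A + i := by
    intro i hi
    induction i with
    | zero => rfl
    | succ i ih =>
      rw [← add_assoc, ha _ (hb i (by omega)) (hb (i + 1) hi)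
        ((lg (i + 1) hi).trans (lg i (by omega)).symm), ih (by omega), add_assoc]
  have hc : (range m ×ˢ (range m ×ˢ range m)).card ≤ energy a N := by
    apply Finset.card_le_card_of_injOn
      (fun w => ((A + (w.1 + w.2.2), A + w.2.1), (A + w.1, A + (w.2.1 + w.2.2))))
    · rintro ⟨x, y, u⟩ hw
      simp only [Finset.coe_product, Set.mem_prod, Finset.mem_coe, Finset.mem_range] at hw
      simp only [Finset.coe_filter, Finset.mem_product, Finset.mem_range, Set.mem_ofPred_eq]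
      refine ⟨⟨⟨by omega, by omega⟩, by omega, by omega⟩, ?_⟩
      rw [hv _ (by omega), hv _ (by omega), hv _ (by omega), hv _ (by omega)]
      omega
    · rintro ⟨x, y, u⟩ _ ⟨x', y', u'⟩ _ h
      simp only [Prod.mk.injEq] at h ⊢
      omega
  rw [Finset.card_product, Finset.card_product, Finset.card_range] at hc
  calc m ^ 3 = m * (m * m) := by ring
    _ ≤ _ := hc

theorem result (ψ : ℕ → ℝ) (hψ : Tendsto ψ atTop atTop) :
    ∃ a : ℕ → ℕ, StrictMono a ∧ 0 < a 0 ∧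
      (∀ᶠ N : ℕ in atTop, (N : ℝ) ^ 3 / ψ N ≤ energy a N) ∧
      ∃ α : ℝ, PPC (fun n => Int.fract ((a n : ℝ) * α)) := by
  classical
  obtain ⟨P, hP⟩ : ∃ P : ℕ → ℕ → Prop,
      P = fun (j k : ℕ) => ∀ N, j ≤ N → 4096 * ((k : ℝ) + 1) ^ 3 ≤ ψ N := ⟨_, rfl⟩
  have P1 : ∀ k, ∀ᶠ j in atTop, P j k := by
    intro k
    obtain ⟨j0, hj0⟩ := eventually_atTop.mp (hψ.eventually_ge_atTop (4096 * ((k : ℝ) + 1) ^ 3))
    filter_upwards [eventually_ge_atTop j0] with j hj
    rw [hP]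
    exact fun N hN => hj0 N (hj.trans hN)
  obtain ⟨e, he⟩ : ∃ e : ℕ → ℕ, e = fun j => Nat.findGreatest (P j) j := ⟨_, rfl⟩
  have e1 : ∀ k, ∀ᶠ n in atTop, k ≤ e n := by
    intro k
    filter_upwards [P1 k, eventually_ge_atTop k] with n h1 h2
    rw [he]
    exact Nat.le_findGreatest h2 h1
  obtain ⟨a, a1, a2, a3, a4⟩ := build e1
  refine ⟨a, a1, a2, ?_, √2, (ppc_iff a _).mpr a4⟩
  obtain ⟨j0, hj0⟩ := eventually_atTop.mp ((P1 0).and (eventually_ge_atTop 3))
  filter_upwards [eventually_ge_atTop (2 ^ (j0 + 1))] with N hN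
  have N0 : N ≠ 0 := by have := Nat.two_pow_pos (j0 + 1); omega
  have l1 : j0 + 1 ≤ Nat.log 2 N := Nat.le_log_of_pow_le (by norm_num) hN
  obtain ⟨j, hj⟩ : ∃ j, Nat.log 2 N = j + 1 := ⟨Nat.log 2 N - 1, by omega⟩
  have b1 : N < 2 ^ (j + 1 + 1) := hj ▸ Nat.lt_pow_succ_log_self (by norm_num) N
  have b2 : 2 ^ (j + 1) ≤ N := hj ▸ Nat.pow_log_le_self 2 N0
  obtain ⟨c1, c2⟩ := hj0 j (by omega)
  have c3 : P j (e j) := by
    rw [he]
    exact Nat.findGreatest_spec (Nat.zero_le j) c1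
  have c4 : e j ≤ j := by
    rw [he]
    exact Nat.findGreatest_le j
  have c5 : 2 * (j + 1) ≤ 2 ^ j := by
    clear b1 b2 c1 c3 c4 hj
    induction j, c2 using Nat.le_induction with
    | base => norm_num
    | succ n _ ih => rw [pow_succ]; omega
  have c6 : j < 2 ^ j := Nat.lt_two_pow_self
  obtain ⟨m, hm⟩ : ∃ m, m = 2 ^ j / (2 * (e j + 1)) := ⟨_, rfl⟩
  have m1 : 2 * (e j + 1) * m ≤ 2 ^ j := hm ▸ Nat.mul_div_le _ _
  have m2 : 2 ^ j < 2 * (e j + 1) * (m + 1) := hm ▸ Nat.lt_mul_div_succ _ (by omega)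
  have m3 : 1 ≤ m := hm ▸ (Nat.le_div_iff_mul_le (by omega)).mpr (by omega)
  have m4 : N ≤ 16 * (e j + 1) * m := by
    rw [pow_succ, pow_succ] at b1
    nlinarith
  have E := energy_ge a3 (j := j) (m := m) (N := N) (by nlinarith) b2
  have E' : (m : ℝ) ^ 3 ≤ energy a N := by exact_mod_cast E
  have m4' : (N : ℝ) ≤ 16 * ((e j : ℝ) + 1) * m := by exact_mod_cast m4
  rw [hP] at c3
  have c7 := c3 N (by rw [pow_succ] at b2; omega)
  have p0 : (0 : ℝ) < 4096 * ((e j : ℝ) + 1) ^ 3 := by positivity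
  refine le_trans ?_ E'
  rw [div_le_iff₀ (p0.trans_le c7)]
  calc (N : ℝ) ^ 3 ≤ (16 * ((e j : ℝ) + 1) * m) ^ 3 := by gcongr
    _ = (m : ℝ) ^ 3 * (4096 * ((e j : ℝ) + 1) ^ 3) := by ring
    _ ≤ _ := by gcongr

end Pool.Agent.Results.MP_1f5025_nt.NoThreshold
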